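import Mathlib

/-!
# MP_304c86_co: closed complexity can be bounded along a piecewise syndetic set

`x` is the characteristic word of the powers of `4` and `S` is the union of the intervals
`[2 * 4^k + 3, 3 * 4^k)`. For `n` in `S` the only possible closed factors of length `n` are
`0^n` and `0^m 1 0^m` with `2 m + 1 = n`.
-/

set_option autoImplicit false

namespace Pool.Agent.Results.MP_304c86_co.BoundedOnThick

/-- A word `w` of length `n` is closed if `n ≤ 1`, or if for some `l < n` the prefix of length `l`
occurs in `w` exactly at the positions `0` and `n - l`, i.e. it is a border of `w` that occurs in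
`w` exactly twice, as a prefix and as a suffix. -/
def IsClosedWord {A : Type} {n : ℕ} (w : Fin n → A) : Prop :=
  n ≤ 1 ∨ ∃ l < n, ∀ (s : ℕ) (hs : s + l ≤ n),
    (∀ (t : ℕ) (ht : t < l), w ⟨s + t, by omega⟩ = w ⟨t, by omega⟩) ↔ (s = 0 ∨ s = n - l)

/-- The closed complexity: the number of closed factors of `x` of length `n`. -/
noncomputable def closedComplexity {A : Type} (x : ℕ → A) (n : ℕ) : ℕ∞ :=
  Set.encard {w : Fin n → A | (∃ i : ℕ, ∀ j : Fin n, w j = x (i + j)) ∧ IsClosedWord w}

/-- `x` is ultimately periodic. -/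
def UltimatelyPeriodic {A : Type} (x : ℕ → A) : Prop :=
  ∃ p > 0, ∃ N : ℕ, ∀ n ≥ N, x (n + p) = x n

/-- For some `g`, every interval of `g` consecutive integers meets `S`. -/
def Syndetic (S : Set ℕ) : Prop := ∃ g : ℕ, ∀ a : ℕ, ∃ n ∈ S, a ≤ n ∧ n < a + g

/-- `T` contains intervals of every finite length. -/
def Thick (T : Set ℕ) : Prop := ∀ L : ℕ, ∃ a : ℕ, ∀ n : ℕ, a ≤ n → n < a + L → n ∈ T

/-- `S` is the intersection of a syndetic set and a thick set. -/
def PiecewiseSyndetic (S : Set ℕ) : Prop := ∃ S₁ T : Set ℕ, Syndetic S₁ ∧ Thick T ∧ S = S₁ ∩ T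

open Classical in
/-- the characteristic word of the powers of 4 -/
noncomputable def x (n : ℕ) : Bool := decide (∃ k : ℕ, n = 4 ^ k)

theorem x_true {n : ℕ} : x n = true ↔ ∃ k : ℕ, n = 4 ^ k := by simp [x]

theorem x_false {n : ℕ} : x n = false ↔ ∀ k : ℕ, n ≠ 4 ^ k := by simp [x]

theorem pow_four_lt {a b : ℕ} (h : a < b) : 4 * 4 ^ a ≤ 4 ^ b := by
  calc 4 * 4 ^ a = 4 ^ (a + 1) := by ring
    _ ≤ 4 ^ b := Nat.pow_le_pow_right (by norm_num) h

/-- between `4^k` and `4^(k+1)` there is no power of 4 -/
theorem x_gap {k n : ℕ} (h1 : 4 ^ k < n) (h2 : n < 4 ^ (k + 1)) : x n = false := by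
  rw [x_false]
  rintro m rfl
  have a1 : k < m := (Nat.pow_lt_pow_iff_right (by norm_num)).1 h1
  have a2 : m < k + 1 := (Nat.pow_lt_pow_iff_right (by norm_num)).1 h2
  omega

theorem not_periodic : ¬ UltimatelyPeriodic x := by
  rintro ⟨p, hp, N, h⟩
  -- choose `k` with `4^k > N` and `4^k > p`
  have hk : N + p < 4 ^ (N + p) := Nat.lt_pow_self (by norm_num)
  set k := N + p
  have h1 : x (4 ^ k + p) = x (4 ^ k) := h _ (by omega)
  have h2 : x (4 ^ k) = true := x_true.2 ⟨k, rfl⟩
  have h3 : x (4 ^ k + p) = false := x_gap (k := k) (by omega) (by rw [pow_succ]; omega)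
  rw [h2, h3] at h1
  exact absurd h1 (by decide)

/-- the set of lengths -/
def S : Set ℕ := {n | ∃ k : ℕ, 2 * 4 ^ k + 3 ≤ n ∧ n < 3 * 4 ^ k}

theorem thick_S : Thick S := by
  intro L
  have hL : L + 3 < 4 ^ (L + 3) := Nat.lt_pow_self (by norm_num)
  refine ⟨2 * 4 ^ (L + 3) + 3, fun n h1 h2 => ⟨L + 3, h1, by omega⟩⟩

theorem pws_S : PiecewiseSyndetic S :=
  ⟨Set.univ, S, ⟨1, fun a => ⟨a, trivial, le_rfl, by omega⟩⟩, thick_S, by simp⟩

/-- windows starting at or before `4^k` are not closed -/
theorem not_closed_left {k n i : ℕ} (h1 : 2 * 4 ^ k + 3 ≤ n) (h2 : n < 3 * 4 ^ k) (hi : i ≤ 4 ^ k)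
    (w : Fin n → Bool) (hw : ∀ j : Fin n, w j = x (i + j)) : ¬ IsClosedWord w := by
  have hpos : 0 < 4 ^ k := by positivity
  have hp : 4 ^ (k + 1) = 4 * 4 ^ k := by rw [pow_succ]; ring
  rintro (h | ⟨l, hl, h⟩)
  · omega
  -- the last one of `w` is at position `r = 4^k - i`; it is followed by `j` zeros
  obtain ⟨r, hr⟩ : ∃ r, i + r = 4 ^ k := ⟨4 ^ k - i, by omega⟩
  have hrn : r < n := by omega
  have one : w ⟨r, hrn⟩ = true := by
    rw [hw]; simp only; rw [hr]; exact x_true.2 ⟨k, rfl⟩
  have zero : ∀ (t : ℕ) (ht : t < n), r < t → w ⟨t, ht⟩ = false := by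
    intro t ht hrt
    rw [hw]; exact x_gap (k := k) (by simp only; omega) (by simp only; omega)
  have hpre := (h (n - l) (by omega)).2 (Or.inr rfl)
  by_cases hlj : l ≤ n - 1 - r
  · -- the border consists of zeros
    have hz : ∀ (t : ℕ) (ht : t < l), w ⟨t, by omega⟩ = false := by
      intro t ht
      rw [← hpre t ht]
      exact zero _ _ (by omega)
    have hlr : l ≤ r := by
      by_contra hc
      have := hz r (by omega)
      rw [one] at this
      exact absurd this (by decide)
    -- a third occurrence at `n - l - 1`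
    have h3 := (h (n - l - 1) (by omega)).1 (fun t ht => by
      rw [hz t ht]
      exact zero _ _ (by omega))
    omega
  · -- the border contains the last one
    have hr' : n - 1 - r < l := by omega
    -- index `t0` of the last one inside the border
    have ht0 : r - (n - l) < l := by omega
    have e1 := hpre (r - (n - l)) ht0
    have e2 : n - l + (r - (n - l)) = r := by omega
    have e3 : w ⟨r - (n - l), by omega⟩ = true := by
      rw [← e1]
      have e6 : (⟨n - l + (r - (n - l)), by omega⟩ : Fin n) = ⟨r, hrn⟩ := Fin.ext e2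
      rw [e6]
      exact one
    have e4 := hpre r (by omega)
    rw [one] at e4
    have e5 := zero (n - l + r) (by omega) (by omega)
    rw [e5] at e4
    exact absurd e4 (by decide)

/-- windows starting after `4^k` contain at most one `1`; if such a window is closed, it is
`0^n` or `0^m 1 0^m` -/
theorem closed_right {k n i : ℕ} (h1 : 2 * 4 ^ k + 3 ≤ n) (h2 : n < 3 * 4 ^ k) (hi : 4 ^ k < i)
    (w : Fin n → Bool) (hw : ∀ j : Fin n, w j = x (i + j)) (hc : IsClosedWord w) :
    w = (fun _ => false) ∨ w = (fun j : Fin n => decide (2 * (j : ℕ) + 1 = n)) := by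
  have hpos : 0 < 4 ^ k := by positivity
  by_cases hall : ∀ (t : ℕ) (ht : t < n), w ⟨t, ht⟩ = false
  · left
    funext j
    exact hall j.1 j.2
  right
  push Not at hall
  obtain ⟨r, hrn, hr⟩ := hall
  have hr1 : x (i + r) = true := by
    have := hw ⟨r, hrn⟩
    simp only at this
    rw [← this]
    simpa using hr
  obtain ⟨a, ha⟩ := x_true.1 hr1
  have one : w ⟨r, hrn⟩ = true := by rw [hw]; exact hr1
  have zero : ∀ (t : ℕ) (ht : t < n), t ≠ r → w ⟨t, ht⟩ = false := by
    intro t ht hne
    rw [hw]
    simp only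
    rw [x_false]
    intro b hb
    rcases lt_trichotomy a b with hab | hab | hab
    · have h3 := pow_four_lt hab
      have h4 : k < a := by
        by_contra hka
        have : 4 ^ a ≤ 4 ^ k := Nat.pow_le_pow_right (by norm_num) (by omega)
        omega
      have h5 := pow_four_lt h4
      omega
    · subst hab; omega
    · have h3 := pow_four_lt hab
      have h4 : k < b := by
        by_contra hka
        have : 4 ^ b ≤ 4 ^ k := Nat.pow_le_pow_right (by norm_num) (by omega)
        omega
      have h5 := pow_four_lt h4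
      omega
  rcases hc with h | ⟨l, hl, h⟩
  · omega
  have hpre := (h (n - l) (by omega)).2 (Or.inr rfl)
  -- the border does not contain the one
  have hlr : l ≤ r := by
    by_contra hcon
    have e := hpre r (by omega)
    rw [one, zero (n - l + r) (by omega) (by omega)] at e
    exact absurd e (by decide)
  have hlj : l ≤ n - 1 - r := by
    by_contra hcon
    have e := hpre (r - (n - l)) (by omega)
    have e6 : (⟨n - l + (r - (n - l)), by omega⟩ : Fin n) = ⟨r, hrn⟩ := Fin.ext (by simp only; omega)
    rw [e6, one, zero (r - (n - l)) (by omega) (by omega)] at e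
    exact absurd e (by decide)
  -- exactly two occurrences force `l = r` and `l = n - 1 - r`
  have hlr' : l = r := by
    by_contra hcon
    have := (h 1 (by omega)).1 (fun t ht => by
      rw [zero (1 + t) (by omega) (by omega), zero t (by omega) (by omega)])
    omega
  have hlj' : l = n - 1 - r := by
    by_contra hcon
    have := (h (n - l - 1) (by omega)).1 (fun t ht => by
      rw [zero (n - l - 1 + t) (by omega) (by omega), zero t (by omega) (by omega)])
    omega
  funext j
  by_cases hj : (j : ℕ) = r
  · have : j = ⟨r, hrn⟩ := Fin.ext hj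
    rw [this, one]
    symm
    rw [decide_eq_true_iff]
    simp only
    omega
  · have := zero j.1 j.2 hj
    have e7 : w j = false := this
    rw [e7]
    symm
    rw [decide_eq_false_iff_not]
    omega

/-- **MP_304c86_co, Q1 is false.** There are an aperiodic binary word `x` and a piecewise syndetic
(even thick) set `S` such that `x` has at most two closed factors of each length `n ∈ S`. -/
theorem result : ∃ (x : ℕ → Bool) (S : Set ℕ), ¬ UltimatelyPeriodic x ∧ PiecewiseSyndetic S ∧
    ∀ n ∈ S, closedComplexity x n ≤ 2 := by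
  refine ⟨x, S, not_periodic, pws_S, ?_⟩
  rintro n ⟨k, h1, h2⟩
  have hsub : {w : Fin n → Bool | (∃ i : ℕ, ∀ j : Fin n, w j = x (i + j)) ∧ IsClosedWord w} ⊆
      {(fun _ => false), (fun j : Fin n => decide (2 * (j : ℕ) + 1 = n))} := by
    rintro w ⟨⟨i, hw⟩, hc⟩
    rcases Nat.lt_or_ge (4 ^ k) i with hi | hi
    · exact closed_right h1 h2 hi w hw hc
    · exact absurd hc (not_closed_left h1 h2 hi w hw)
  calc closedComplexity x n ≤ Set.encard ({(fun _ => false),
        (fun j : Fin n => decide (2 * (j : ℕ) + 1 = n))} : Set (Fin n → Bool)) := Set.encard_le_encard hsub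
    _ ≤ 2 := by
      refine (Set.encard_insert_le _ _).trans ?_
      rw [Set.encard_singleton]
      norm_num

end Pool.Agent.Results.MP_304c86_co.BoundedOnThick
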